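import Mathlib
import Pool.Agent.H916R3.Main

set_option maxSynthPendingDepth 6

/-!
# Copies of `C(ω ^ ω ^ α)` in injective tensor products

For every countable ordinal `α` there is a Banach space `X`, containing no isomorphic copy of
`c₀` and none of `C(ω ^ ω ^ α)`, such that `C(ω ^ ω ^ α)` is isometric to a norm one
complemented subspace of the injective tensor product of `X` with itself.  With `Y = X` this
refutes Q1 and Q2 for every countable `α > 0`.
-/

namespace Pool.Agent.Results.MP_ba88e9_an.NegativeAnswer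

open Set Filter Topology Ordinal
open Pool.Agent.H916R3
open scoped ZeroAtInfty

/-- `C(ξ)`: continuous real functions on the compact space `[0, ξ]` of ordinals. -/
abbrev COrd (ξ : Ordinal.{0}) := C(Set.Iic ξ, ℝ)

instance instCompactIic (ξ : Ordinal.{0}) : CompactSpace (Set.Iic ξ) := by
  have h : (Set.Iic ξ) = Set.Icc 0 ξ := by
    ext x; simp
  rw [h]
  exact isCompact_iff_compactSpace.mp isCompact_Icc

/-- Transport along the order isomorphism `[0, ξ] ≃ (ξ + 1).ToType`. -/
noncomputable def isoK (ξ : Ordinal.{0}) : (Order.succ ξ).ToType ≃o Set.Iic ξ :=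
  (Ordinal.ToType.mk (o := Order.succ ξ)).symm.trans
    (OrderIso.setCongr _ _ (Order.Iio_succ ξ))

theorem exists_space (ξ : Ordinal.{0}) (hξ : ξ.card ≤ Cardinal.aleph0) :
    ∃ (X : Type) (_ : NormedAddCommGroup X) (_ : NormedSpace ℝ X) (_ : CompleteSpace X),
      NormOneComplemented (COrd ξ) (InjTensor X X) ∧
      ∀ z : ℕ → X, WUC z → Tendsto (fun k => ‖z k‖) atTop (𝓝 0) := by
  let K := (Order.succ ξ).ToType
  let _ : TopologicalSpace K := Preorder.topology K
  have _ : OrderTopology K := ⟨rfl⟩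
  let g : K ≃o Set.Iic ξ := isoK ξ
  let h : K ≃ₜ Set.Iic ξ := g.toHomeomorph
  have _ : CompactSpace K := h.symm.compactSpace
  let _ : OrderTop K :=
    { top := g.symm ⟨ξ, Set.mem_Iic.mpr le_rfl⟩
      le_top := fun a => by
        rw [← g.symm_apply_apply a]
        exact g.symm.monotone (g a).2 }
  have _ : Countable K := by
    rw [← Cardinal.mk_le_aleph0_iff, Cardinal.mk_toType, Order.succ_eq_add_one,
      Ordinal.card_add, Ordinal.card_one]
    exact Cardinal.add_le_aleph0.mpr ⟨hξ, Cardinal.one_le_aleph0⟩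
  obtain ⟨X, i1, i2, i3, ⟨J, P, hP, hPJ⟩, hnull⟩ := main_construction K
  let A : COrd ξ →ₗᵢ[ℝ] C(K, ℝ) :=
    { toFun := fun f => f.comp ⟨h, h.continuous⟩
      map_add' := fun _ _ => rfl
      map_smul' := fun _ _ => rfl
      norm_map' := fun f => by
        refine le_antisymm ?_ ?_
        · exact (ContinuousMap.norm_le _ (norm_nonneg _)).mpr fun t => f.norm_coe_le_norm _
        · refine (ContinuousMap.norm_le _ (norm_nonneg _)).mpr fun t => ?_
          have h1 : f t = (f.comp ⟨h, h.continuous⟩ : C(K, ℝ)) (h.symm t) := by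
            simp
          rw [h1]
          exact ContinuousMap.norm_coe_le_norm _ _ }
  let B : C(K, ℝ) →L[ℝ] COrd ξ := LinearMap.mkContinuous
    { toFun := fun f => f.comp ⟨h.symm, h.symm.continuous⟩
      map_add' := fun _ _ => rfl
      map_smul' := fun _ _ => rfl } 1 (fun f => by
        rw [one_mul]
        exact (ContinuousMap.norm_le _ (norm_nonneg _)).mpr fun t => f.norm_coe_le_norm _)
  have hB : ‖B‖ ≤ 1 := LinearMap.mkContinuous_norm_le _ zero_le_one _
  refine ⟨X, i1, i2, i3, ⟨J.comp A, B.comp P, ?_, fun f => ?_⟩, hnull⟩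
  · calc ‖B.comp P‖ ≤ ‖B‖ * ‖P‖ := ContinuousLinearMap.opNorm_comp_le _ _
      _ ≤ 1 * 1 := mul_le_mul hB hP (norm_nonneg _) zero_le_one
      _ = 1 := one_mul 1
  · change B (P (J (A f))) = f
    rw [hPJ]
    refine ContinuousMap.ext fun t => ?_
    change f (h (h.symm t)) = f t
    rw [h.apply_symm_apply]

/-- Indicators of the finite ordinals in `C(ξ)`. -/
theorem exists_bumps (ξ : Ordinal.{0}) (hξ : ω ≤ ξ) :
    ∃ b : ℕ → COrd ξ, WUC b ∧ ∀ k, 1 ≤ ‖b k‖ := by
  classical
  have hmem : ∀ n : ℕ, (n : Ordinal.{0}) ∈ Set.Iic ξ := fun n =>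
    (Ordinal.natCast_lt_omega0 n).le.trans hξ
  let x : ℕ → Set.Iic ξ := fun n => ⟨n, hmem n⟩
  have hx : Function.Injective x := by
    intro a b hab
    have : ((a : Ordinal.{0})) = b := congrArg Subtype.val hab
    exact_mod_cast this
  have hopen : ∀ n, IsClopen ({x n} : Set (Set.Iic ξ)) := by
    intro n
    refine ⟨isClosed_singleton, ?_⟩
    have h1 : IsOpen ({(n : Ordinal.{0})} : Set Ordinal.{0}) := by
      rw [SuccOrder.isOpen_singleton_iff]
      intro hl
      have := Ordinal.omega0_le_of_isSuccLimit hl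
      exact absurd this (not_le.mpr (Ordinal.natCast_lt_omega0 n))
    have h2 : ({x n} : Set (Set.Iic ξ)) = Subtype.val ⁻¹' {(n : Ordinal.{0})} := by
      ext y
      simp only [Set.mem_singleton_iff, Set.mem_preimage]
      exact ⟨fun h => by rw [h], fun h => Subtype.ext h⟩
    rw [h2]
    exact h1.preimage continuous_subtype_val
  let b : ℕ → COrd ξ := fun n => ⟨Set.indicator {x n} (fun _ => (1 : ℝ)), by
    refine continuous_const.indicator fun a ha => ?_
    rw [(hopen n).frontier_eq] at ha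
    exact absurd ha (Set.notMem_empty a)⟩
  have hbapp : ∀ n y, b n y = if y = x n then 1 else 0 := by
    intro n y
    change Set.indicator {x n} (fun _ => (1 : ℝ)) y = _
    rw [Set.indicator_apply]
    rfl
  refine ⟨b, ⟨1, fun F => ?_⟩, fun k => ?_⟩
  · refine (ContinuousMap.norm_le _ zero_le_one).mpr fun y => ?_
    rw [ContinuousMap.coe_sum, Finset.sum_apply]
    simp only [hbapp]
    by_cases hy : ∃ n ∈ F, y = x n
    · obtain ⟨n, hn, rfl⟩ := hy
      rw [Finset.sum_eq_single n]
      · simp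
      · intro m _ hmn
        rw [if_neg]
        intro h; exact hmn (hx h).symm
      · intro h; exact absurd hn h
    · rw [Finset.sum_eq_zero]
      · simp
      · intro n hn
        rw [if_neg]
        intro h; exact hy ⟨n, hn, h⟩
  · have := (b k).norm_coe_le_norm (x k)
    rw [hbapp, if_pos rfl, norm_one] at this
    exact this

/-- The unit vectors of `c₀`. -/
theorem exists_c0_bumps : ∃ b : ℕ → C₀(ℕ, ℝ), WUC b ∧ ∀ k, 1 ≤ ‖b k‖ := by
  classical
  let b : ℕ → C₀(ℕ, ℝ) := fun n => ⟨⟨fun m => if m = n then 1 else 0, continuous_of_discreteTopology⟩, by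
    rw [Filter.cocompact_eq_cofinite]
    refine tendsto_const_nhds.congr' ?_
    rw [Filter.EventuallyEq, Filter.eventually_cofinite]
    refine (Set.finite_singleton n).subset ?_
    intro m hm
    by_contra hne
    exact hm (by simp [show m ≠ n from hne])⟩
  have hbapp : ∀ n m, b n m = if m = n then 1 else 0 := fun _ _ => rfl
  have hnorm : ∀ f : C₀(ℕ, ℝ), ∀ m, ‖f m‖ ≤ ‖f‖ := fun f m =>
    f.toBCF.norm_coe_le_norm m
  refine ⟨b, ⟨1, fun F => ?_⟩, fun k => ?_⟩
  · have : ∀ m, ‖(∑ k ∈ F, b k) m‖ ≤ 1 := by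
      intro m
      have h1 : (∑ k ∈ F, b k) m = ∑ k ∈ F, b k m := by
        induction F using Finset.induction_on with
        | empty => simp
        | insert a s ha ih => rw [Finset.sum_insert ha, Finset.sum_insert ha,
            ZeroAtInftyContinuousMap.add_apply, ih]
      rw [h1]
      simp only [hbapp]
      rw [Finset.sum_ite_eq]
      split_ifs <;> simp
    exact (BoundedContinuousFunction.norm_le zero_le_one).mpr this
  · have := hnorm (b k) k
    rw [hbapp, if_pos rfl, norm_one] at this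
    exact this

theorem card_omega_opow_opow (α : Ordinal.{0}) (hα : α.card ≤ Cardinal.aleph0) :
    (ω ^ (ω ^ α) : Ordinal.{0}).card ≤ Cardinal.aleph0 := by
  have h1 : (ω ^ α : Ordinal.{0}).card ≤ Cardinal.aleph0 := by
    refine (Ordinal.card_opow_le ω α).trans ?_
    rw [Ordinal.card_omega0]
    exact max_le le_rfl (max_le le_rfl hα)
  refine (Ordinal.card_opow_le ω _).trans ?_
  rw [Ordinal.card_omega0]
  exact max_le le_rfl (max_le le_rfl h1)

/-- For every countable ordinal `α` there is a Banach space `X` without isomorphic copies of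
`C(ω ^ ω ^ α)` and of `c₀` such that `C(ω ^ ω ^ α)` is isometric (via `J`) to a subspace of the
completed injective tensor product of `X` and `X` which is the range of the norm one
projection `J ∘ P`. -/
theorem result (α : Ordinal.{0}) (hα : α.card ≤ Cardinal.aleph0) :
    ∃ (X : Type) (_ : NormedAddCommGroup X) (_ : NormedSpace ℝ X) (_ : CompleteSpace X),
      NormOneComplemented (COrd (ω ^ (ω ^ α))) (InjTensor X X) ∧
      ¬ Embeds (COrd (ω ^ (ω ^ α))) X ∧ ¬ Embeds C₀(ℕ, ℝ) X := by
  obtain ⟨X, i1, i2, i3, hJ, hnull⟩ := exists_space (ω ^ (ω ^ α)) (card_omega_opow_opow α hα)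
  refine ⟨X, i1, i2, i3, hJ, ?_, ?_⟩
  · rintro ⟨W, _, ⟨T⟩⟩
    have hω : ω ≤ ω ^ (ω ^ α) := by
      have h1 : (1 : Ordinal.{0}) ≤ ω ^ α := Order.one_le_iff_pos.mpr
        (Ordinal.opow_pos α Ordinal.omega0_pos)
      calc ω = ω ^ (1 : Ordinal.{0}) := (Ordinal.opow_one ω).symm
        _ ≤ ω ^ (ω ^ α) := Ordinal.opow_le_opow_right Ordinal.omega0_pos h1
    obtain ⟨b, hb, hb1⟩ := exists_bumps (ω ^ (ω ^ α)) hω
    exact no_copy hnull b hb hb1 W T
  · rintro ⟨W, _, ⟨T⟩⟩
    obtain ⟨b, hb, hb1⟩ := exists_c0_bumps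
    exact no_copy hnull b hb hb1 W T

end Pool.Agent.Results.MP_ba88e9_an.NegativeAnswer
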